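import Pool.Agent.H391R2.WrGrp

/-!
Signs of actions of wreath products; the action of `S_4` on the two-element subsets.
-/

set_option autoImplicit false

namespace Pool.Agent.N342.EP

open Pool.Agent.H391R2 Equiv

/-- the two-element subsets of a set with four elements -/
abbrev S2 : Type := {s : Finset (Fin 4) // s.card = 2}

/-- a two-element subset -/
def pr (i j : Fin 4) (h : i ≠ j) : S2 := ⟨{i, j}, Finset.card_pair h⟩

/-- the action of `S_4` -/
def lam : Perm (Fin 4) →* Perm S2 where
  toFun τ :=
    { toFun := fun s => ⟨s.1.map τ.toEmbedding, by rw [Finset.card_map]; exact s.2⟩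
      invFun := fun s => ⟨s.1.map τ⁻¹.toEmbedding, by rw [Finset.card_map]; exact s.2⟩
      left_inv := fun s => by
        apply Subtype.ext
        simp only [Finset.map_map]
        convert Finset.map_refl
        ext x
        simp
      right_inv := fun s => by
        apply Subtype.ext
        simp only [Finset.map_map]
        convert Finset.map_refl
        ext x
        simp }
  map_one' := by
    ext s x
    simp
    exact Iff.rfl
  map_mul' σ τ := by
    apply Equiv.ext
    intro s
    apply Subtype.ext
    show s.1.map (σ * τ).toEmbedding = (s.1.map τ.toEmbedding).map σ.toEmbedding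
    rw [Finset.map_map]
    rfl

theorem lam_coe (τ : Perm (Fin 4)) (s : S2) : ((lam τ s : S2) : Finset (Fin 4)) =
    s.1.map τ.toEmbedding := rfl

/-- complements -/
def cc : Perm S2 where
  toFun s := ⟨s.1ᶜ, by rw [Finset.card_compl, s.2]; rfl⟩
  invFun s := ⟨s.1ᶜ, by rw [Finset.card_compl, s.2]; rfl⟩
  left_inv s := Subtype.ext (compl_compl _)
  right_inv s := Subtype.ext (compl_compl _)

theorem cc_eq : cc = swap (pr 0 1 (by decide)) (pr 2 3 (by decide)) *
    swap (pr 0 2 (by decide)) (pr 1 3 (by decide)) *
    swap (pr 0 3 (by decide)) (pr 1 2 (by decide)) := by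
  decide

theorem sign_cc : Perm.sign cc = -1 := by
  rw [cc_eq, Perm.sign_mul, Perm.sign_mul, Perm.sign_swap (by decide), Perm.sign_swap (by decide),
    Perm.sign_swap (by decide)]
  decide

theorem lam_swap : lam (swap 0 1) = swap (pr 0 2 (by decide)) (pr 1 2 (by decide)) *
    swap (pr 0 3 (by decide)) (pr 1 3 (by decide)) := by
  decide

theorem sign_lam (τ : Perm (Fin 4)) : Perm.sign (lam τ) = 1 := by
  by_contra hne
  set f : Perm (Fin 4) →* ℤˣ := Perm.sign.comp lam with hf
  have hsurj : Function.Surjective f := by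
    intro u
    rcases Int.units_eq_one_or u with rfl | rfl
    · exact ⟨1, map_one _⟩
    · refine ⟨τ, ?_⟩
      rcases Int.units_eq_one_or (Perm.sign (lam τ)) with h | h
      · exact absurd h hne
      · exact h
  have h1 := Perm.eq_sign_of_surjective_hom hsurj
  have h2 : f (swap 0 1) = 1 := by
    show Perm.sign (lam (swap 0 1)) = 1
    rw [lam_swap, Perm.sign_mul, Perm.sign_swap (by decide), Perm.sign_swap (by decide)]
    decide
  rw [h1, Perm.sign_swap (by decide)] at h2
  exact absurd h2 (by decide)

theorem lam_comm (τ : Perm (Fin 4)) : Commute cc (lam τ) := by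
  apply Equiv.ext
  intro s
  apply Subtype.ext
  show (s.1.map τ.toEmbedding)ᶜ = (s.1ᶜ).map τ.toEmbedding
  ext x
  simp only [Finset.mem_compl, Finset.mem_map_equiv]

theorem cc_sq : cc * cc = 1 := by
  apply Equiv.ext
  intro s
  exact Subtype.ext (compl_compl _)

theorem lam_trans (s t : S2) : ∃ τ : Perm (Fin 4), lam τ s = t := by
  obtain ⟨a, b, hab, hs⟩ := Finset.card_eq_two.1 s.2
  obtain ⟨c, d, hcd, ht⟩ := Finset.card_eq_two.1 t.2
  obtain ⟨τ, h1, h2⟩ : ∃ τ : Perm (Fin 4), τ a = c ∧ τ b = d := by
    revert a b c d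
    intro a b hab _ c d hcd _
    refine ⟨swap (swap a c b) d * swap a c, ?_, ?_⟩
    · rw [Perm.mul_apply, swap_apply_left]
      apply swap_apply_of_ne_of_ne
      · intro h
        exact hab ((swap a c).injective ((swap_apply_left a c).trans h))
      · exact hcd
    · rw [Perm.mul_apply, swap_apply_left]
  refine ⟨τ, Subtype.ext ?_⟩
  rw [lam_coe, hs, ht]
  simp [h1, h2]

/-- signs as powers of the complement -/
def eps : ℤˣ →* Perm S2 where
  toFun u := if u = 1 then 1 else cc
  map_one' := if_pos rfl
  map_mul' u v := by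
    rcases Int.units_eq_one_or u with rfl | rfl <;> rcases Int.units_eq_one_or v with rfl | rfl <;>
      simp [cc_sq]

theorem sign_eps (u : ℤˣ) : Perm.sign (eps u) = u := by
  rcases Int.units_eq_one_or u with rfl | rfl
  · simp [eps]
  · show Perm.sign (if (-1 : ℤˣ) = 1 then 1 else cc) = -1
    rw [if_neg (by decide), sign_cc]

theorem eps_comm (u : ℤˣ) (τ : Perm (Fin 4)) : Commute (eps u) (lam τ) := by
  rcases Int.units_eq_one_or u with rfl | rfl
  · rw [map_one]; exact Commute.one_left _
  · show Commute (if (-1 : ℤˣ) = 1 then 1 else cc) (lam τ)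
    rw [if_neg (by decide)]
    exact lam_comm τ

section wr

variable {E S : Type} [Group E]

/-- the imprimitive action of the wreath product -/
def wact (L : E →* Perm S) (r : ℕ) : Wr E r →* Perm (Fin r × S) where
  toFun x := (Equiv.prodCongrLeft fun _ => x.right) *
    (Equiv.prodCongrRight fun i => L (x.left (x.right i)))
  map_one' := by
    ext ⟨i, s⟩ <;> simp [Equiv.prodCongrLeft, Equiv.prodCongrRight]
  map_mul' x y := by
    apply Equiv.ext
    rintro ⟨i, s⟩
    have h : x.right⁻¹ (x.right (y.right i)) = y.right i := x.right.symm_apply_apply _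
    simp only [Perm.mul_apply, Equiv.prodCongrLeft, Equiv.prodCongrRight, Equiv.coe_fn_mk,
      wr_mul_left, wr_mul_right, h, map_mul]

theorem wact_apply (L : E →* Perm S) (r : ℕ) (x : Wr E r) (i : Fin r) (s : S) :
    wact L r x (i, s) = (x.right i, L (x.left (x.right i)) s) := rfl

theorem sign_wact [Fintype S] [DecidableEq S] (L : E →* Perm S) (r : ℕ) (x : Wr E r)
    (hS : Even (Fintype.card S)) :
    Perm.sign (wact L r x) = ∏ i, Perm.sign (L (x.left i)) := by
  show Perm.sign ((Equiv.prodCongrLeft fun _ => x.right) *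
    (Equiv.prodCongrRight fun i => L (x.left (x.right i)))) = _
  rw [Perm.sign_mul, Perm.sign_prodCongrLeft, Perm.sign_prodCongrRight]
  rw [Finset.prod_const, Finset.card_univ]
  obtain ⟨m, hm⟩ := hS
  rw [hm, ← two_mul, pow_mul, Int.units_sq, one_pow, one_mul]
  exact Equiv.prod_comp x.right fun i => Perm.sign (L (x.left i))

end wr

end Pool.Agent.N342.EP
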