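import Pool.Agent.N70.EP.Stm
import Pool.Agent.N342.EP.Act

/-!
The statement `St_grp1` of the project EP (helper70).
-/

set_option autoImplicit false

namespace Pool.Agent.N342.EP

open Pool.Agent.H391R2 Pool.Agent.H391R2.T4 Pool.Agent.N70.EP Equiv

section

variable {X Ω : Type} [Group X] [Fintype Ω] [DecidableEq Ω]

/-- the stabilizer of a point -/
def stabP (Φ : X →* Perm Ω) (ω : Ω) : Subgroup X where
  carrier := {x | Φ x ω = ω}
  one_mem' := by
    show Φ 1 ω = ω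
    rw [map_one]; rfl
  mul_mem' := by
    intro a b ha hb
    show Φ (a * b) ω = ω
    rw [map_mul, Perm.mul_apply, (hb : Φ b ω = ω), (ha : Φ a ω = ω)]
  inv_mem' := by
    intro a ha
    show Φ a⁻¹ ω = ω
    rw [map_inv]
    exact (Equiv.symm_apply_eq (Φ a)).2 (ha : Φ a ω = ω).symm

omit [Fintype Ω] [DecidableEq Ω] in
theorem mem_stabP (Φ : X →* Perm Ω) (ω : Ω) (x : X) : x ∈ stabP Φ ω ↔ Φ x ω = ω := Iff.rfl

theorem sgnIndex_of (Φ : X →* Perm Ω) (ω : Ω) (ht : ∀ ω', ∃ x, Φ x ω = ω') (m : ℕ)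
    (hm : Fintype.card Ω = m) (ψ : X →* ℤˣ) (hψ : ∀ x, Perm.sign (Φ x) = ψ x) :
    SgnIndex X (stabP Φ ω) m ψ := by
  let e : Fin m ≃ Ω := (Fintype.equivFinOfCardEq hm).symm
  choose g hg using fun t : Fin m => ht (e t)
  have heq : ∀ x y : X, ((x : X ⧸ stabP Φ ω) = (y : X ⧸ stabP Φ ω)) ↔ Φ x ω = Φ y ω := by
    intro x y
    rw [QuotientGroup.eq, mem_stabP, map_mul, map_inv, Perm.mul_apply]
    constructor
    · intro h
      exact ((Equiv.symm_apply_eq (Φ x)).1 h).symm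
    · intro h
      exact (Equiv.symm_apply_eq (Φ x)).2 h.symm
  refine ⟨g, ⟨?_, ?_⟩, ?_⟩
  · intro t s hts
    have h1 := (heq (g t) (g s)).1 hts
    rw [hg, hg] at h1
    exact e.injective h1
  · intro q
    obtain ⟨x, rfl⟩ := QuotientGroup.mk_surjective q
    refine ⟨e.symm (Φ x ω), ?_⟩
    show ((g (e.symm (Φ x ω)) : X) : X ⧸ stabP Φ ω) = (x : X ⧸ stabP Φ ω)
    rw [heq, hg, Equiv.apply_symm_apply]
  · intro γ π hπ
    have h1 : ∀ t, Φ γ (e t) = e (π t) := by
      intro t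
      have h2 := (heq _ _).1 (hπ t)
      rw [map_mul, Perm.mul_apply, hg, hg] at h2
      exact h2
    rw [← hψ]
    exact (Perm.sign_eq_sign_of_equiv (Φ γ) π e.symm fun x => by
      obtain ⟨t, rfl⟩ := e.surjective x
      rw [h1, Equiv.symm_apply_apply, Equiv.symm_apply_apply]).symm

end

theorem t_grp1 : St_grp1 := by
  classical
  intro H B _ _ _ _ a ha χ r hr
  -- the labels
  let L : B × Perm (Fin 4) →* Perm S2 :=
    (eps.comp (χ.comp a)).noncommCoprod lam (fun b τ => eps_comm (χ (a b)) τ)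
  have hL : ∀ b τ s, L (b, τ) s = eps (χ (a b)) (lam τ s) := fun b τ s => by
    simp [L, MonoidHom.noncommCoprod_apply]
  have hLs : ∀ e, Perm.sign (L e) = χ (a e.1) := by
    rintro ⟨b, τ⟩
    have : L (b, τ) = eps (χ (a b)) * lam τ := by
      simp [L, MonoidHom.noncommCoprod_apply]
    rw [this, Perm.sign_mul, sign_eps, sign_lam, mul_one]
  set α := a.comp (MonoidHom.fst B (Perm (Fin 4))) with hα
  have hr0 : 0 < r := hr.pos
  let i0 : Fin r := ⟨0, hr0⟩
  let s0 : S2 := pr 0 1 (by decide)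
  let Φ : SymEP α r →* Perm (Fin r × S2) :=
    (wact L r).comp ((MonoidHom.fst (Wr (B × Perm (Fin 4)) r) H).comp (SymEP α r).subtype)
  have hΦ : ∀ (x : SymEP α r) i s, Φ x (i, s) =
      ((x : Wr (B × Perm (Fin 4)) r × H).1.right i,
        L ((x : Wr (B × Perm (Fin 4)) r × H).1.left
          ((x : Wr (B × Perm (Fin 4)) r × H).1.right i)) s) := fun x i s => rfl
  have hmem : ∀ (x : SymEP α r) i, a ((x : Wr (B × Perm (Fin 4)) r × H).1.left i).1 =
      (x : Wr (B × Perm (Fin 4)) r × H).2 := fun x i => x.2 i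
  have hsign : ∀ x : SymEP α r, Perm.sign (Φ x) = (χ.comp (symProj α r)) x := by
    intro x
    show Perm.sign (wact L r (x : Wr (B × Perm (Fin 4)) r × H).1) =
      χ (x : Wr (B × Perm (Fin 4)) r × H).2
    rw [sign_wact L r _ (by decide)]
    have h1 : ∀ i, Perm.sign (L ((x : Wr (B × Perm (Fin 4)) r × H).1.left i)) =
        χ (x : Wr (B × Perm (Fin 4)) r × H).2 := by
      intro i
      rw [hLs, hmem]
    rw [Finset.prod_congr rfl fun i _ => h1 i, Finset.prod_const, Finset.card_univ,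
      Fintype.card_fin]
    obtain ⟨k, rfl⟩ := hr
    rw [pow_succ, pow_mul, Int.units_sq, one_pow, one_mul]
  have htrans : ∀ ω' : Fin r × S2, ∃ x, Φ x (i0, s0) = ω' := by
    rintro ⟨j, s⟩
    obtain ⟨τ, hτ⟩ := lam_trans s0 s
    refine ⟨⟨(⟨fun _ => (1, τ), swap i0 j⟩, 1), fun i => ?_⟩, ?_⟩
    · show a 1 = 1
      exact map_one a
    · rw [hΦ]
      show (swap i0 j i0, L (1, τ) s0) = (j, s)
      rw [swap_apply_left, hL, hτ, map_one, map_one, map_one]
      rfl
  have hP : ∀ p : stabP Φ (i0, s0),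
      ((p : SymEP α r) : Wr (B × Perm (Fin 4)) r × H).1.right i0 = i0 := by
    intro p
    have h1 : Φ p (i0, s0) = (i0, s0) := p.2
    rw [hΦ] at h1
    exact congrArg Prod.fst h1
  let β : stabP Φ (i0, s0) →* B :=
    { toFun := fun p => (((p : SymEP α r) : Wr (B × Perm (Fin 4)) r × H).1.left i0).1
      map_one' := rfl
      map_mul' := fun x y => by
        have h1 : (((x : SymEP α r) : Wr (B × Perm (Fin 4)) r × H).1.right)⁻¹ i0 = i0 :=
          (Equiv.symm_apply_eq _).2 (hP x).symm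
        show ((((x : SymEP α r) : Wr (B × Perm (Fin 4)) r × H).1 *
          ((y : SymEP α r) : Wr (B × Perm (Fin 4)) r × H).1).left i0).1 = _
        rw [wr_mul_left, h1]
        rfl }
  refine ⟨stabP Φ (i0, s0), β, ?_, ?_, ?_⟩
  · intro b
    obtain ⟨τ, hτ⟩ := lam_trans s0 ((eps (χ (a b)))⁻¹ s0)
    refine ⟨⟨⟨(⟨fun _ => (b, τ), 1⟩, a b), fun i => rfl⟩, ?_⟩, rfl⟩
    rw [mem_stabP, hΦ]
    show ((1 : Perm (Fin r)) i0, L (b, τ) s0) = (i0, s0)
    rw [hL, hτ]
    have : eps (χ (a b)) ((eps (χ (a b)))⁻¹ s0) = s0 := Equiv.apply_symm_apply _ _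
    rw [this]
    rfl
  · intro p
    exact hmem p i0
  · refine sgnIndex_of Φ (i0, s0) htrans (6 * r) ?_ _ hsign
    rw [Fintype.card_prod, Fintype.card_fin, mul_comm]
    congr 1

end Pool.Agent.N342.EP
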